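import Pool.Agent.Helper11.NH.Sheet
import Pool.Agent.Helper91.PU.SCL
import Pool.Agent.H11ST.Asm
open MeasureTheory Metric Set Filter Topology Real
open scoped ENNReal NNReal

/-!
# Row SIM of NH (MP_665203_co): scaling to a disc of radius larger than one
-/

namespace H11ST
namespace NH

open H11ST.PU.SCL

variable {x : E 2} {r R : ℝ}

theorem SimP.mem_ball (hR : 0 < R) (w : E 2) :
    hom x R hR w ∈ ball x r ↔ w ∈ ball (0 : E 2) (r / R) := by
  have := mem_ball_hom_zero (x := x) hR w (r / R)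
  rwa [div_mul_cancel₀ r hR.ne'] at this

theorem SimP.locAdm (hR : 0 < R) {A S : Set (E 2)} (L : LocAdm A S x r) :
    LocAdm (hom x R hR ⁻¹' A) (hom x R hR ⁻¹' S) 0 (r / R) := by
  have hball : ∀ B : Set (E 2), hom x R hR ⁻¹' B ∩ ball 0 (r / R) =
      (hom x R hR).symm '' (B ∩ ball x r) := by
    intro B
    rw [← PU.SCL.preimage_eq]
    ext w
    rw [mem_preimage, mem_inter_iff, mem_inter_iff, mem_preimage, SimP.mem_ball]
  refine ⟨div_pos L.rpos hR, L.hS.preimage (hom x R hR).continuous, ?_, ?_, ?_, ?_⟩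
  · rw [← preimage_union, PU.SCL.preimage_eq]
    exact L.conn.image _ (hom x R hR).symm.continuous.continuousOn
  · intro z hz hzb
    exact L.far _ hz ((SimP.mem_ball hR z).2 hzb)
  · rw [hball]
    exact ne_top_of_le_ne_top (ENNReal.mul_ne_top ENNReal.ofReal_ne_top L.fin)
      (meas_symm_image_le hR _)
  · intro T hT hc hT'
    have h1 := L.minim (hom x R hR '' T) ((hom x R hR).isClosedMap T hT) (by
      have h2 : hom x R hR '' T ∪ A = hom x R hR '' (T ∪ hom x R hR ⁻¹' A) := by
        rw [image_union, image_preimage_eq _ (hom x R hR).surjective]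
      rw [h2]
      exact hc.image _ (hom x R hR).continuous.continuousOn) (by
      ext z
      have h2 := Set.ext_iff.1 hT' ((hom x R hR).symm z)
      rw [Set.mem_sdiff, Set.mem_sdiff, mem_preimage, ← SimP.mem_ball (x := x) hR,
        Homeomorph.apply_symm_apply] at h2
      rw [Set.mem_sdiff, Set.mem_sdiff, ← h2, ← Homeomorph.preimage_symm, mem_preimage])
    rw [hball]
    have h3 : hom x R hR '' T ∩ ball x r = hom x R hR '' (T ∩ ball 0 (r / R)) := by
      rw [image_inter (hom x R hR).injective]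
      congr 1
      ext z
      rw [← Homeomorph.preimage_symm, mem_preimage, ← SimP.mem_ball (x := x) hR,
        Homeomorph.apply_symm_apply]
    calc μH[1] ((hom x R hR).symm '' (S ∩ ball x r)) ≤ ENNReal.ofReal R⁻¹ * μH[1] (S ∩ ball x r) :=
          meas_symm_image_le hR _
      _ ≤ ENNReal.ofReal R⁻¹ * μH[1] (hom x R hR '' T ∩ ball x r) := by gcongr
      _ ≤ ENNReal.ofReal R⁻¹ * (ENNReal.ofReal R * μH[1] (T ∩ ball 0 (r / R))) := by
          rw [h3]
          gcongr
          exact meas_image_le hR _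
      _ = μH[1] (T ∩ ball 0 (r / R)) := by
          rw [← mul_assoc, ← ENNReal.ofReal_mul (inv_pos.2 hR).le, inv_mul_cancel₀ hR.ne',
            ENNReal.ofReal_one, one_mul]

/-- the row SIM -/
theorem sim_row : NH_SIM := by
  intro A S x r L hA Y hYn hY
  have hr := L.rpos
  obtain ⟨y₀, hy₀, hmax⟩ := Y.exists_max_image (fun y => dist y x) hYn
  have hd : 2 * dist y₀ x < r := by
    have := mem_ball.1 (hY y₀ hy₀).1
    linarith
  obtain ⟨R, hR1, hR2⟩ := exists_between hd
  have hR : 0 < R := lt_of_le_of_lt (mul_nonneg zero_le_two dist_nonneg) hR1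
  have hreg := reg_at (by norm_num) L hA (hY y₀ hy₀).2
  refine ⟨hom x R hR ⁻¹' A, hom x R hR ⁻¹' S, r / R,
    Y.map (hom x R hR).symm.toEquiv.toEmbedding,
    ⟨SimP.locAdm hR L, hA.preimage (hom x R hR).continuous, (one_lt_div hR).2 hR2, ?_⟩,
    Finset.card_map _, ?_⟩
  · rintro z ⟨hz, hzb⟩
    rcases hreg (hom x R hR z) ⟨hz, (SimP.mem_ball hR z).2 hzb⟩ with ⟨u, ε, h⟩ | ⟨u, ε, h⟩
    · exact Or.inl ⟨u, _, PU.SCL.lin hR h⟩
    · exact Or.inr ⟨u, _, PU.SCL.tri hR h⟩
  · intro y hy
    rw [Finset.mem_map] at hy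
    obtain ⟨w, hw, rfl⟩ := hy
    obtain ⟨-, u, ε, h2⟩ := hY w hw
    have h3 : hom x R hR ((hom x R hR).symm w) = w := Homeomorph.apply_symm_apply _ _
    have hw' : 2 * dist w x < R := lt_of_le_of_lt
      (mul_le_mul_of_nonneg_left (hmax w hw) zero_le_two) hR1
    refine ⟨?_, u, ε / R, PU.SCL.tri hR ?_⟩
    · have h4 := (mem_ball_hom_zero (x := x) hR ((hom x R hR).symm w) (1 / 2)).1 (by
        rw [h3, mem_ball]
        linarith)
      rw [mem_ball, dist_zero_right] at h4
      exact h4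
    · show Tri S (hom x R hR ((hom x R hR).symm w)) u ε
      rw [h3]; exact h2

end NH
end H11ST
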