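import Pool.Agent.Helper11.NH.Sheet
open MeasureTheory Metric Set Filter Topology Real
open scoped ENNReal NNReal

/-!
# Rows MEAS and GEO of NH (MP_665203_co): the seven segments of the tree
-/

namespace H11ST
namespace NH
namespace TreeG

/-- the height of a point over the line of the arm `0`, in the unit `√3 / 2` -/
noncomputable def ht (φ : ℝ) (s : Fin 3 → E 2) (z : E 2) : ℝ :=
  2 / √3 * inner ℝ (z - s 0) (ev (φ + π / 2))

variable {φ : ℝ} {s : Fin 3 → E 2} {a : Fin 2 → ℝ} {v : Fin 5 → E 2} {c : Fin 5 → ℝ}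

theorem ht_zero : ht φ s (s 0) = 0 := by
  rw [ht, sub_self, inner_zero_left, mul_zero]

theorem ht_add (z : E 2) (t θ : ℝ) :
    ht φ s (z + t • ev (φ + θ)) = ht φ s z + t * (2 / √3 * sin θ) := by
  have h1 : z + t • ev (φ + θ) - s 0 = (z - s 0) + t • ev (φ + θ) := by abel
  have h2 : φ + θ - (φ + π / 2) = -(π / 2 - θ) := by ring
  rw [ht, ht, h1, inner_add_left, real_inner_smul_left, inner_ev, h2, cos_neg, cos_pi_div_two_sub]
  ring

theorem s3 : 2 / √3 * (√3 / 2) = 1 := by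
  have : √3 ≠ 0 := by positivity
  field_simp

theorem sn23 : sin (2 * π / 3) = √3 / 2 := by
  rw [show 2 * π / 3 = π - π / 3 by ring, sin_pi_sub, sin_pi_div_three]

theorem sn53 : sin (5 * π / 3) = -(√3 / 2) := by
  rw [show 5 * π / 3 = 2 * π - π / 3 by ring, sin_two_pi_sub, sin_pi_div_three]

/-- the heights of the feet -/
def hh (a : Fin 2 → ℝ) : Fin 5 → ℝ := ![0, a 0, a 0, -a 1, -a 1]
/-- the slopes of the arms -/
def kk : Fin 5 → ℝ := ![0, 1, 0, 0, -1]

theorem kk_eq (i : Fin 5) : 2 / √3 * sin (dl i) = kk i := by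
  fin_cases i
  · simp [dl, kk]
  · show 2 / √3 * sin (π / 3) = 1
    rw [sin_pi_div_three, s3]
  · simp [dl, kk]
  · simp [dl, kk]
  · show 2 / √3 * sin (5 * π / 3) = -1
    rw [sn53, mul_neg, s3]

theorem ht_s1 (g : Geo φ s a v c) : ht φ s (s 1) = a 0 := by
  rw [g.s1, ht_add, sn23, s3, ht_zero]
  ring

theorem ht_s2 (g : Geo φ s a v c) : ht φ s (s 2) = -a 1 := by
  rw [g.s2, show φ - 2 * π / 3 = φ + -(2 * π / 3) by ring, ht_add, sin_neg, sn23, mul_neg, s3,
    ht_zero]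
  ring

theorem ht_ft (g : Geo φ s a v c) (i : Fin 5) : ht φ s (s (ft i)) = hh a i := by
  fin_cases i
  · exact ht_zero
  · exact ht_s1 g
  · exact ht_s1 g
  · exact ht_s2 g
  · exact ht_s2 g

theorem seg {x u z : E 2} {l : ℝ} (hl : 0 ≤ l) (h : z ∈ segment ℝ x (x + l • u)) :
    ∃ t, 0 ≤ t ∧ t ≤ l ∧ z = x + t • u := by
  rw [segment_eq_image'] at h
  obtain ⟨θ, ⟨h0, h1⟩, rfl⟩ := h
  refine ⟨θ * l, mul_nonneg h0 hl, mul_le_of_le_one_left hl h1, ?_⟩
  show x + θ • (x + l • u - x) = x + (θ * l) • u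
  rw [add_sub_cancel_left, smul_smul]

theorem arm (g : Geo φ s a v c) (i : Fin 5) {z : E 2} (hz : z ∈ segment ℝ (s (ft i)) (v i)) :
    ∃ t, 0 ≤ t ∧ t ≤ c i ∧ z = s (ft i) + t • dv φ i ∧ ht φ s z = hh a i + t * kk i := by
  rw [g.vd i] at hz
  obtain ⟨t, h0, h1, rfl⟩ := seg (g.cpos i).le hz
  refine ⟨t, h0, h1, rfl, ?_⟩
  rw [dv, ht_add, ht_ft g, kk_eq]

theorem e1 (g : Geo φ s a v c) {z : E 2} (hz : z ∈ segment ℝ (s 0) (s 1)) :
    0 ≤ ht φ s z ∧ ht φ s z ≤ a 0 ∧ z = s 0 + (ht φ s z) • ev (φ + 2 * π / 3) := by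
  rw [g.s1] at hz
  obtain ⟨t, h0, h1, rfl⟩ := seg (g.apos 0).le hz
  have h : ht φ s (s 0 + t • ev (φ + 2 * π / 3)) = t := by
    rw [ht_add, sn23, s3, ht_zero]
    ring
  rw [h]
  exact ⟨h0, h1, rfl⟩

theorem e2 (g : Geo φ s a v c) {z : E 2} (hz : z ∈ segment ℝ (s 0) (s 2)) :
    ht φ s z ≤ 0 ∧ -a 1 ≤ ht φ s z ∧ z = s 0 + (-ht φ s z) • ev (φ - 2 * π / 3) := by
  rw [g.s2] at hz
  obtain ⟨t, h0, h1, rfl⟩ := seg (g.apos 1).le hz
  have h : ht φ s (s 0 + t • ev (φ - 2 * π / 3)) = -t := by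
    rw [show φ - 2 * π / 3 = φ + -(2 * π / 3) by ring, ht_add, sin_neg, sn23, mul_neg, s3,
      ht_zero]
    ring
  rw [h, neg_neg]
  exact ⟨by linarith, by linarith, rfl⟩

/-- the intersections -/
theorem e12 (g : Geo φ s a v c) : segment ℝ (s 0) (s 1) ∩ segment ℝ (s 0) (s 2) ⊆ {s 0} := by
  rintro z ⟨h1, h2⟩
  obtain ⟨a1, -, a3⟩ := e1 g h1
  obtain ⟨b1, -, -⟩ := e2 g h2
  have h : ht φ s z = 0 := le_antisymm b1 a1
  rw [h, zero_smul, add_zero] at a3
  exact a3

theorem e1a (g : Geo φ s a v c) (i : Fin 5) :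
    segment ℝ (s 0) (s 1) ∩ segment ℝ (s (ft i)) (v i) ⊆ {s (ft i)} := by
  rintro z ⟨h1, h2⟩
  obtain ⟨a1, a2, a3⟩ := e1 g h1
  obtain ⟨t, t0, -, tz, th⟩ := arm g i h2
  have p0 := g.apos 0
  have p1 := g.apos 1
  fin_cases i
  · have h : ht φ s z = 0 := by rw [th]; simp [hh, kk]
    rw [h, zero_smul, add_zero] at a3
    exact a3
  · have h : ht φ s z = a 0 + t := by rw [th]; simp [hh, kk]
    have h' : t = 0 := by linarith
    rw [h', zero_smul, add_zero] at tz
    exact tz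
  · have h : ht φ s z = a 0 := by rw [th]; simp [hh, kk]
    rw [h, ← g.s1] at a3
    exact a3
  · have h : ht φ s z = -a 1 := by rw [th]; simp [hh, kk]
    linarith
  · have h : ht φ s z = -a 1 - t := by rw [th]; simp [hh, kk]; ring
    linarith

theorem e2a (g : Geo φ s a v c) (i : Fin 5) :
    segment ℝ (s 0) (s 2) ∩ segment ℝ (s (ft i)) (v i) ⊆ {s (ft i)} := by
  rintro z ⟨h1, h2⟩
  obtain ⟨a1, a2, a3⟩ := e2 g h1
  obtain ⟨t, t0, -, tz, th⟩ := arm g i h2
  have p0 := g.apos 0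
  have p1 := g.apos 1
  fin_cases i
  · have h : ht φ s z = 0 := by rw [th]; simp [hh, kk]
    rw [h, neg_zero, zero_smul, add_zero] at a3
    exact a3
  · have h : ht φ s z = a 0 + t := by rw [th]; simp [hh, kk]
    linarith
  · have h : ht φ s z = a 0 := by rw [th]; simp [hh, kk]
    linarith
  · have h : ht φ s z = -a 1 := by rw [th]; simp [hh, kk]
    rw [h, neg_neg, ← g.s2] at a3
    exact a3
  · have h : ht φ s z = -a 1 - t := by rw [th]; simp [hh, kk]; ring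
    have h' : t = 0 := by linarith
    rw [h', zero_smul, add_zero] at tz
    exact tz

theorem aa (g : Geo φ s a v c) (i j : Fin 5) (hij : i ≠ j) :
    segment ℝ (s (ft i)) (v i) ∩ segment ℝ (s (ft j)) (v j) ⊆ {s (ft j)} := by
  rintro z ⟨h1, h2⟩
  obtain ⟨t, t0, -, tz, th⟩ := arm g i h1
  obtain ⟨r, r0, -, rz, rh⟩ := arm g j h2
  have p0 := g.apos 0
  have p1 := g.apos 1
  rw [th] at rh
  have key : (ft i = ft j ∧ (t = 0 ∨ r = 0)) ∨ False := by
    fin_cases i <;> fin_cases j <;> simp [hh, kk, ft] at rh hij ⊢ <;>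
      first | linarith | (left; linarith) | (right; linarith)
  rcases key with ⟨h, h' | h'⟩ | h
  · rw [h', zero_smul, add_zero] at tz
    rw [tz, h]
    rfl
  · rw [h', zero_smul, add_zero] at rz
    exact rz
  · exact h.elim

theorem cpt (x y : E 2) : IsCompact (segment ℝ x y) := by
  rw [segment_eq_image_lineMap]
  exact isCompact_Icc.image (by fun_prop)

theorem aed {p q : Set (E 2)} {w : E 2} (h : p ∩ q ⊆ {w}) : AEDisjoint (μH[1] : Measure (E 2)) p q := by
  have := Measure.nullSingletonClass_hausdorff (E 2) (d := 1) one_pos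
  exact measure_mono_null h (measure_singleton w)

theorem seglen {x u : E 2} {l : ℝ} (hl : 0 ≤ l) (hu : ‖u‖ = 1) :
    μH[1] (segment ℝ x (x + l • u)) = ENNReal.ofReal l := by
  rw [hausdorffMeasure_segment, edist_dist, dist_self_add_right, norm_smul, hu, mul_one,
    Real.norm_of_nonneg hl]

end TreeG

open TreeG in
/-- the row MEAS -/
theorem meas_row : NH_MEAS := by
  intro φ s a v c g
  have nm : ∀ x y : E 2, NullMeasurableSet (segment ℝ x y) (μH[1] : Measure (E 2)) := fun x y =>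
    (cpt x y).isClosed.measurableSet.nullMeasurableSet
  have hU : NullMeasurableSet (⋃ i, segment ℝ (s (ft i)) (v i)) (μH[1] : Measure (E 2)) :=
    NullMeasurableSet.iUnion fun i => nm _ _
  have hd : AEDisjoint (μH[1] : Measure (E 2)) (segment ℝ (s 0) (s 1) ∪ segment ℝ (s 0) (s 2))
      (⋃ i, segment ℝ (s (ft i)) (v i)) := by
    rw [AEDisjoint.iUnion_right_iff]
    intro i
    exact AEDisjoint.union_left (aed (e1a g i)) (aed (e2a g i))
  have hp : Pairwise fun i j => AEDisjoint (μH[1] : Measure (E 2)) (segment ℝ (s (ft i)) (v i))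
      (segment ℝ (s (ft j)) (v j)) := fun i j hij => aed (aa g i j hij)
  rw [tree, measure_union₀ hU hd, measure_union₀ (nm _ _) (aed (e12 g)),
    measure_iUnion₀ hp fun i => nm _ _, tsum_fintype]
  have l1 : μH[1] (segment ℝ (s 0) (s 1)) = ENNReal.ofReal (a 0) := by
    rw [g.s1]
    exact seglen (g.apos 0).le (norm_ev _)
  have l2 : μH[1] (segment ℝ (s 0) (s 2)) = ENNReal.ofReal (a 1) := by
    rw [g.s2]
    exact seglen (g.apos 1).le (norm_ev _)
  have l3 : ∀ i, μH[1] (segment ℝ (s (ft i)) (v i)) = ENNReal.ofReal (c i) := by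
    intro i
    rw [g.vd i]
    exact seglen (g.cpos i).le (norm_ev _)
  rw [l1, l2, Finset.sum_congr rfl fun i _ => l3 i,
    ← ENNReal.ofReal_sum_of_nonneg fun i _ => (g.cpos i).le,
    ← ENNReal.ofReal_add (g.apos 0).le (g.apos 1).le,
    ← ENNReal.ofReal_add (add_nonneg (g.apos 0).le (g.apos 1).le)
      (Finset.sum_nonneg fun i _ => (g.cpos i).le)]

end NH
end H11ST
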