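import Pool.Agent.Helper80.NH.Stm

/-! The gain of the chords at one arm (helper36's identity). -/

set_option autoImplicit false

namespace H11ST
namespace NH
namespace ArmP

open Real

theorem br_form (G U : ℝ) : br G U = 4 * cos (G / 2 - U / 4) * sin (U / 4) := by
  unfold br ch
  have e1 : G / 2 = (G / 2 - U / 4) + U / 4 := by ring
  have e2 : (G - U) / 2 = (G / 2 - U / 4) - U / 4 := by ring
  rw [e2, sin_sub]
  have e3 : sin (G / 2) = sin ((G / 2 - U / 4) + U / 4) := by rw [← e1]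
  rw [e3, sin_add]
  ring

theorem br_anti {G G0 U : ℝ} (hU : 0 ≤ U) (hUG : U ≤ G) (hG : G ≤ G0) (h0 : G0 ≤ 2 * π) :
    br G0 U ≤ br G U := by
  rw [br_form, br_form]
  have h1 : cos (G0 / 2 - U / 4) ≤ cos (G / 2 - U / 4) := by
    refine cos_le_cos_of_nonneg_of_le_pi (by linarith) (by linarith) (by linarith)
  have h2 : 0 ≤ sin (U / 4) := sin_nonneg_of_nonneg_of_le_pi (by linarith) (by linarith)
  nlinarith

theorem pw_sq (w : ℝ) : (√2 * sin (π / 4 + w / 2)) ^ 2 = 1 + sin w := by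
  have h1 : cos (2 * (π / 4 + w / 2)) = - sin w := by
    rw [show 2 * (π / 4 + w / 2) = w + π / 2 by ring, cos_add_pi_div_two]
  have h2 := cos_two_mul (π / 4 + w / 2)
  have h3 := sin_sq_add_cos_sq (π / 4 + w / 2)
  rw [mul_pow, Real.sq_sqrt (by norm_num)]
  linarith

theorem qw_sq (w : ℝ) : (√2 * cos (π / 4 + w / 2)) ^ 2 = 1 - sin w := by
  have h1 : cos (2 * (π / 4 + w / 2)) = - sin w := by
    rw [show 2 * (π / 4 + w / 2) = w + π / 2 by ring, cos_add_pi_div_two]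
  have h2 := cos_two_mul (π / 4 + w / 2)
  rw [mul_pow, Real.sq_sqrt (by norm_num)]
  linarith

/-- The identity for the gain. -/
theorem br_eq {b w G r : ℝ} (hb1 : -(π / 2) ≤ b) (hb2 : b ≤ π / 2) (hw1 : -(π / 2) ≤ w)
    (hw2 : w ≤ π / 2) (hs : sin w = sin b - √3 / 2 * r) (hr : 0 < r) :
    ∃ P Q : ℝ, 0 < P ∧ 0 < Q ∧ P ^ 2 ≤ 1 + (sin b + sin w) / 2 ∧
      Q ^ 2 ≤ 1 - (sin b + sin w) / 2 ∧
      br G (b - w) = r * (√3 / (2 * √2)) *
        (cos (π / 4 + b / 2 - G / 2) * (1 / P) + sin (π / 4 + b / 2 - G / 2) * (1 / Q)) := by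
  have h3 : 0 < √3 := by positivity
  have h2 : 0 < √2 := by positivity
  have hlt : sin w < sin b := by
    have : 0 < √3 / 2 * r := by positivity
    linarith
  obtain ⟨pb, epb⟩ : ∃ x, x = √2 * sin (π / 4 + b / 2) := ⟨_, rfl⟩
  obtain ⟨pw, epw⟩ : ∃ x, x = √2 * sin (π / 4 + w / 2) := ⟨_, rfl⟩
  obtain ⟨qb, eqb⟩ : ∃ x, x = √2 * cos (π / 4 + b / 2) := ⟨_, rfl⟩
  obtain ⟨qw, eqw⟩ : ∃ x, x = √2 * cos (π / 4 + w / 2) := ⟨_, rfl⟩
  have spb : pb ^ 2 = 1 + sin b := by rw [epb]; exact pw_sq b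
  have spw : pw ^ 2 = 1 + sin w := by rw [epw]; exact pw_sq w
  have sqb : qb ^ 2 = 1 - sin b := by rw [eqb]; exact qw_sq b
  have sqw : qw ^ 2 = 1 - sin w := by rw [eqw]; exact qw_sq w
  have npb : 0 ≤ pb := by
    rw [epb]
    exact mul_nonneg h2.le (sin_nonneg_of_nonneg_of_le_pi (by linarith) (by linarith))
  have npw : 0 ≤ pw := by
    rw [epw]
    exact mul_nonneg h2.le (sin_nonneg_of_nonneg_of_le_pi (by linarith) (by linarith))
  have nqb : 0 ≤ qb := by
    rw [eqb]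
    exact mul_nonneg h2.le (cos_nonneg_of_neg_pi_div_two_le_of_le (by linarith) (by linarith))
  have nqw : 0 ≤ qw := by
    rw [eqw]
    exact mul_nonneg h2.le (cos_nonneg_of_neg_pi_div_two_le_of_le (by linarith) (by linarith))
  have hm1 := neg_one_le_sin w
  have hm2 := sin_le_one b
  have ppb : 0 < pb := by
    rcases npb.lt_or_eq with h | h
    · exact h
    · rw [← h] at spb
      nlinarith
  have pqw : 0 < qw := by
    rcases nqw.lt_or_eq with h | h
    · exact h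
    · rw [← h] at sqw
      nlinarith
  have hP : 0 < (pb + pw) / 2 := by linarith
  have hQ : 0 < (qb + qw) / 2 := by linarith
  refine ⟨(pb + pw) / 2, (qb + qw) / 2, hP, hQ, ?_, ?_, ?_⟩
  · nlinarith [sq_nonneg (pb - pw)]
  · nlinarith [sq_nonneg (qb - qw)]
  · obtain ⟨dl, edl⟩ : ∃ dl, dl = π / 4 + b / 2 - G / 2 := ⟨_, rfl⟩
    rw [← edl]
    have e1 : G / 2 = (π / 4 + b / 2) - dl := by rw [edl]; ring
    have e2 : (G - (b - w)) / 2 = (π / 4 + w / 2) - dl := by rw [edl]; ring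
    have s2 : √2 * √2 = 2 := Real.mul_self_sqrt (by norm_num)
    have k1 : 2 * sin (G / 2) = √2 * (pb * cos dl - qb * sin dl) := by
      rw [e1, sin_sub, epb, eqb]
      linear_combination (-(sin (π / 4 + b / 2) * cos dl - cos (π / 4 + b / 2) * sin dl)) * s2
    have k2 : 2 * sin ((G - (b - w)) / 2) = √2 * (pw * cos dl - qw * sin dl) := by
      rw [e2, sin_sub, epw, eqw]
      linear_combination (-(sin (π / 4 + w / 2) * cos dl - cos (π / 4 + w / 2) * sin dl)) * s2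
    have k3 : br G (b - w) = √2 * (cos dl * (pb - pw) + sin dl * (qw - qb)) := by
      unfold br ch
      rw [k1, k2]
      ring
    have k4 : pb - pw = √3 / 2 * r / 2 * (1 / ((pb + pw) / 2)) := by
      rw [mul_one_div, eq_div_iff hP.ne']
      linarith [show (pb - pw) * ((pb + pw) / 2) = (pb ^ 2 - pw ^ 2) / 2 by ring]
    have k5 : qw - qb = √3 / 2 * r / 2 * (1 / ((qb + qw) / 2)) := by
      rw [mul_one_div, eq_div_iff hQ.ne']
      linarith [show (qw - qb) * ((qb + qw) / 2) = (qw ^ 2 - qb ^ 2) / 2 by ring]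
    rw [k3]
    have k6 : √2 * (√3 / 2 * r / 2) = r * (√3 / (2 * √2)) := by
      field_simp
      rw [Real.sq_sqrt (by norm_num)]
    calc √2 * (cos dl * (pb - pw) + sin dl * (qw - qb))
        = √2 * (cos dl * (√3 / 2 * r / 2 * (1 / ((pb + pw) / 2))) +
          sin dl * (√3 / 2 * r / 2 * (1 / ((qb + qw) / 2)))) := by rw [← k4, ← k5]
      _ = √2 * (√3 / 2 * r / 2) * (cos dl * (1 / ((pb + pw) / 2)) +
          sin dl * (1 / ((qb + qw) / 2))) := by ring
      _ = _ := by rw [k6]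

/-- The tangent of `1 / P`. -/
theorem tool {P a : ℝ} (hP : 0 < P) (ha : 0 < a) : (3 * a ^ 2 - P ^ 2) / (2 * a ^ 3) ≤ 1 / P := by
  rw [div_le_div_iff₀ (by positivity) hP]
  nlinarith [mul_nonneg (sq_nonneg (P - a)) (show (0 : ℝ) ≤ P + 2 * a by positivity)]

/-- What one side of an arm gives. -/
structure Side (b w r dl g : ℝ) (P Q : ℝ) : Prop where
  p0 : 0 < P
  q0 : 0 < Q
  pp : P ^ 2 ≤ 1 + (sin b + sin w) / 2
  qq : Q ^ 2 ≤ 1 - (sin b + sin w) / 2
  le : r * (√3 / (2 * √2)) * (cos dl * (1 / P) + sin dl * (1 / Q)) ≤ g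

theorem sin_rel {b U r : ℝ} (h : r = 4 / √3 * (sin (U / 2) * cos (b - U / 2))) :
    sin (b - U) = sin b - √3 / 2 * r := by
  have h3 : 0 < √3 := by positivity
  have e1 : sin b = sin ((b - U / 2) + U / 2) := by ring_nf
  have e2 : sin (b - U) = sin ((b - U / 2) - U / 2) := by ring_nf
  have e3 : √3 / 2 * r = 2 * (sin (U / 2) * cos (b - U / 2)) := by
    rw [h]
    field_simp
    ring
  rw [e3, e2, e1, sin_add, sin_sub]
  ring_nf

theorem side {b U G G0 r : ℝ} (hb1 : 0 ≤ b) (hb2 : b ≤ π / 2) (hU : 0 ≤ U)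
    (hw : -(π / 2) ≤ b - U) (h : r = 4 / √3 * (sin (U / 2) * cos (b - U / 2))) (hr : 0 < r)
    (hUG : U ≤ G) (hG : G ≤ G0) (h0 : G0 ≤ 2 * π) :
    ∃ P Q : ℝ, Side b (b - U) r (π / 4 + b / 2 - G0 / 2) (br G U) P Q := by
  have hpi := pi_pos
  obtain ⟨P, Q, h1, h2, h3, h4, h5⟩ := br_eq (b := b) (w := b - U) (G := G0) (r := r)
    (by linarith) hb2 hw (by linarith) (sin_rel h) hr
  refine ⟨P, Q, h1, h2, h3, h4, ?_⟩
  rw [← h5]
  have e : b - (b - U) = U := by ring
  rw [e]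
  exact br_anti hU hUG hG h0

theorem kap_lo : (0.6123 : ℝ) ≤ √3 / (2 * √2) := by
  have h2 : √2 ≤ 1.41422 := by
    rw [Real.sqrt_le_left (by norm_num)]
    norm_num
  have h3 : (1.73205 : ℝ) ≤ √3 := by
    apply Real.le_sqrt_of_sq_le
    norm_num
  have h20 : 0 < √2 := by positivity
  rw [le_div_iff₀ (by positivity)]
  nlinarith

theorem s3_lo : (0.866 : ℝ) ≤ √3 / 2 := by
  have h3 : (1.732 : ℝ) ≤ √3 := by
    apply Real.le_sqrt_of_sq_le
    norm_num
  linarith

/-- Lemma K. -/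
theorem lemK {P Q : ℝ} (hP : 0 < P) (hQ : 0 < Q) (h : P ^ 2 + Q ^ 2 ≤ 2) :
    1.348 ≤ √3 / 2 * (1 / P) + 1 / 2 * (1 / Q) := by
  have h1 := tool hP (show (0 : ℝ) < 1.0863 by norm_num)
  have h2 := tool hQ (show (0 : ℝ) < 0.9055 by norm_num)
  have h3 : 0.866 * (1 / P) ≤ √3 / 2 * (1 / P) :=
    mul_le_mul_of_nonneg_right s3_lo (by positivity)
  rw [div_le_iff₀ (by norm_num)] at h1 h2
  norm_num at h1 h2 h3 ⊢
  nlinarith [sq_nonneg P, sq_nonneg Q]

theorem fin_mul {r k S g : ℝ} (hr : 0 ≤ r) (hk : 1 ≤ k * S) (h : r * k * S ≤ g) : r ≤ g := by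
  have : r * 1 ≤ r * (k * S) := mul_le_mul_of_nonneg_left hk hr
  nlinarith

theorem one_le_kap {S : ℝ} (h : 1.6345 ≤ S) : 1 ≤ √3 / (2 * √2) * S := by
  have h1 := kap_lo
  have h2 : 0.6123 * S ≤ √3 / (2 * √2) * S := mul_le_mul_of_nonneg_right h1 (by linarith)
  linarith

theorem br_zero {b U r G : ℝ} (hb1 : 0 ≤ b) (hb2 : b ≤ π / 2) (hU : 0 ≤ U)
    (hw : -(π / 2) ≤ b - U) (h : r = 4 / √3 * (sin (U / 2) * cos (b - U / 2))) (hr : r = 0) :
    br G U = 0 := by
  have hpi := pi_pos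
  have h1 := sin_rel h
  rw [hr, mul_zero, sub_zero] at h1
  have h2 := injOn_sin (Set.mem_Icc.2 ⟨hw, by linarith⟩) (Set.mem_Icc.2 ⟨by linarith, hb2⟩) h1
  have h3 : U = 0 := by linarith
  rw [h3]
  unfold br
  rw [sub_zero, sub_self]

end ArmP

open Real ArmP

theorem armB : ST_ARMB := by
  intro al r Up Um G hal h hG1 hG2
  have hpi := pi_pos
  rw [abs_le] at hal
  obtain ⟨ha1, ha2⟩ := hal
  rcases h.r0.eq_or_lt with h0 | h0
  · rw [br_zero (b := π / 3 - al) (by linarith) (by linarith) h.up0 h.wp h.up h0.symm, ← h0]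
  obtain ⟨P, Q, hs⟩ := side (b := π / 3 - al) (G := G) (G0 := π / 6 - al) (by linarith)
    (by linarith) h.up0 h.wp h.up h0 hG1 hG2 (by linarith)
  have e1 : π / 4 + (π / 3 - al) / 2 - (π / 6 - al) / 2 = π / 3 := by ring
  have hle := hs.le
  rw [e1, cos_pi_div_three, sin_pi_div_three] at hle
  have k1 : 1 / 2 ≤ sin (π / 3 - al) := by
    rw [← sin_pi_div_six]
    exact sin_le_sin_of_le_of_le_pi_div_two (by linarith) (by linarith) (by linarith)
  have k2 : 1 / 2 ≤ sin (π / 3 - al - Up) := by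
    rw [← sin_pi_div_six]
    exact sin_le_sin_of_le_of_le_pi_div_two (by linarith) (by linarith [h.up0]) (by linarith)
  refine fin_mul h0.le ?_ hle
  have s2 : 0 < √2 := by positivity
  have s3 : 0 < √3 := by positivity
  have q2 : √2 * √2 = 2 := Real.mul_self_sqrt (by norm_num)
  have q3 : √3 * √3 = 3 := Real.mul_self_sqrt (by norm_num)
  have t1 : (9 / 2 - P ^ 2) / 12 ≤ √3 / (2 * √2) * (1 / 2 * (1 / P)) := by
    have e2 : √3 / (2 * √2) * (1 / 2 * (1 / P)) = √3 / (4 * √2 * P) := by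
      field_simp
      norm_num
    rw [e2, div_le_div_iff₀ (by norm_num) (by have := hs.p0; positivity)]
    -- (9/2 - P^2) * (4 √2 P) ≤ √3 * 12
    have h5 := mul_nonneg (sq_nonneg (√2 * P - √3)) (show (0 : ℝ) ≤ √2 * P + 2 * √3 by
      have := hs.p0; positivity)
    have e3 : (√2 * P - √3) ^ 2 * (√2 * P + 2 * √3) =
        √2 * √2 * √2 * P ^ 3 - 3 * (√3 * √3) * (√2 * P) + 2 * (√3 * √3) * √3 := by ring
    rw [e3, q3, q2] at h5
    nlinarith
  have t2 : 3 / 4 * (3 / 2 - Q ^ 2) ≤ √3 / (2 * √2) * (√3 / 2 * (1 / Q)) := by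
    have e2 : √3 / (2 * √2) * (√3 / 2 * (1 / Q)) = 3 / (4 * √2 * Q) := by
      field_simp
      rw [Real.sq_sqrt (by norm_num)]
      norm_num
    rw [e2, le_div_iff₀ (by have := hs.q0; positivity)]
    have h5 := mul_nonneg (sq_nonneg (√2 * Q - 1)) (show (0 : ℝ) ≤ √2 * Q + 2 by
      have := hs.q0; positivity)
    have e3 : (√2 * Q - 1) ^ 2 * (√2 * Q + 2) = √2 * √2 * √2 * Q ^ 3 - 3 * (√2 * Q) + 2 := by ring
    rw [e3, q2] at h5
    nlinarith
  have t3 := hs.pp
  have t4 := hs.qq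
  calc (1 : ℝ) ≤ (9 / 2 - P ^ 2) / 12 + 3 / 4 * (3 / 2 - Q ^ 2) := by linarith
    _ ≤ √3 / (2 * √2) * (1 / 2 * (1 / P)) + √3 / (2 * √2) * (√3 / 2 * (1 / Q)) := add_le_add t1 t2
    _ = _ := by ring

/-- The sum of the squares. -/
theorem ArmP.Side.two {b w r dl g P Q : ℝ} (h : Side b w r dl g P Q) : P ^ 2 + Q ^ 2 ≤ 2 := by
  have h1 := h.pp
  have h2 := h.qq
  linarith

theorem arm2 : ST_ARM2 := by
  intro al r Up Um G₁ G₂ hal h hm hp hG1 hG2
  have hpi := pi_pos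
  rw [abs_le] at hal
  obtain ⟨ha1, ha2⟩ := hal
  rcases h.r0.eq_or_lt with h0 | h0
  · rw [br_zero (b := π / 3 - al) (by linarith) (by linarith) h.up0 h.wp h.up h0.symm,
      br_zero (b := π / 3 + al) (by linarith) (by linarith) h.um0 h.wm h.um h0.symm, ← h0]
    norm_num
  obtain ⟨P, Q, hs⟩ := side (b := π / 3 - al) (G := G₂) (G0 := 5 * π / 6 - al) (by linarith)
    (by linarith) h.up0 h.wp h.up h0 hp hG2 (by linarith)
  obtain ⟨P', Q', hs'⟩ := side (b := π / 3 + al) (G := G₁) (G0 := π / 2 + al) (by linarith)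
    (by linarith) h.um0 h.wm h.um h0 hm hG1 (by linarith)
  have e1 : π / 4 + (π / 3 - al) / 2 - (5 * π / 6 - al) / 2 = 0 := by ring
  have e2 : π / 4 + (π / 3 + al) / 2 - (π / 2 + al) / 2 = π / 6 := by ring
  have hle := hs.le
  have hle' := hs'.le
  rw [e1, cos_zero, sin_zero] at hle
  rw [e2, cos_pi_div_six, sin_pi_div_six] at hle'
  have hK := lemK hs'.p0 hs'.q0 hs'.two
  have hP : 0.7 ≤ 1 / P := by
    rw [le_div_iff₀ hs.p0]
    have h1 := hs.two
    have h2 := sq_nonneg Q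
    have h3 : P ≤ 1.4143 := by
      by_contra h4
      push Not at h4
      have := hs.p0
      nlinarith
    nlinarith
  refine fin_mul (k := √3 / (2 * √2))
    (S := (√3 / 2 * (1 / P') + 1 / 2 * (1 / Q')) + (1 * (1 / P) + 0 * (1 / Q)) / 2)
    h0.le (one_le_kap (by linarith)) ?_
  linarith

theorem armT : ST_ARMT := by
  intro al r Up Um G₁ G₂ hal h hm hp hG1 hG2
  have hpi := pi_pos
  rw [abs_le] at hal
  obtain ⟨ha1, ha2⟩ := hal
  rcases h.r0.eq_or_lt with h0 | h0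
  · rw [br_zero (b := π / 3 - al) (by linarith) (by linarith) h.up0 h.wp h.up h0.symm,
      br_zero (b := π / 3 + al) (by linarith) (by linarith) h.um0 h.wm h.um h0.symm, ← h0]
    norm_num
  obtain ⟨P, Q, hs⟩ := side (b := π / 3 - al) (G := G₂) (G0 := π / 2 - al) (by linarith)
    (by linarith) h.up0 h.wp h.up h0 hp hG2 (by linarith)
  obtain ⟨P', Q', hs'⟩ := side (b := π / 3 + al) (G := G₁) (G0 := π / 2 + al) (by linarith)
    (by linarith) h.um0 h.wm h.um h0 hm hG1 (by linarith)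
  have e1 : π / 4 + (π / 3 - al) / 2 - (π / 2 - al) / 2 = π / 6 := by ring
  have e2 : π / 4 + (π / 3 + al) / 2 - (π / 2 + al) / 2 = π / 6 := by ring
  have hle := hs.le
  have hle' := hs'.le
  rw [e1, cos_pi_div_six, sin_pi_div_six] at hle
  rw [e2, cos_pi_div_six, sin_pi_div_six] at hle'
  have hK := lemK hs.p0 hs.q0 hs.two
  have hK' := lemK hs'.p0 hs'.q0 hs'.two
  refine fin_mul (k := √3 / (2 * √2))
    (S := (√3 / 2 * (1 / P') + 1 / 2 * (1 / Q')) / 2 + (√3 / 2 * (1 / P) + 1 / 2 * (1 / Q)))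
    h0.le (one_le_kap (by linarith)) ?_
  linarith

/-- Between two angles. -/
theorem ArmP.between {D D0 D1 x y m : ℝ} (h0 : 0 ≤ D0) (h1 : D0 ≤ D) (h2 : D ≤ D1)
    (h3 : D1 ≤ π / 2) (h4 : D0 < D1) (hm : 0 ≤ m) (a : m ≤ cos D0 * x + sin D0 * y)
    (b : m ≤ cos D1 * x + sin D1 * y) : m ≤ cos D * x + sin D * y := by
  have hpi := pi_pos
  have s1 : 0 < sin (D1 - D0) := sin_pos_of_pos_of_lt_pi (by linarith) (by linarith)
  have s2 : 0 ≤ sin (D1 - D) := sin_nonneg_of_nonneg_of_le_pi (by linarith) (by linarith)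
  have s3 : 0 ≤ sin (D - D0) := sin_nonneg_of_nonneg_of_le_pi (by linarith) (by linarith)
  have s4 : sin (D1 - D0) ≤ sin (D1 - D) + sin (D - D0) := by
    have e : D1 - D0 = (D1 - D) + (D - D0) := by ring
    rw [e, sin_add]
    have c1 := cos_le_one (D - D0)
    have c2 := cos_le_one (D1 - D)
    nlinarith
  have e1 : sin (D1 - D0) * (cos D * x + sin D * y) =
      sin (D1 - D) * (cos D0 * x + sin D0 * y) + sin (D - D0) * (cos D1 * x + sin D1 * y) := by
    have i1 : sin (D1 - D0) * cos D = sin (D1 - D) * cos D0 + sin (D - D0) * cos D1 := by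
      rw [sin_sub, sin_sub, sin_sub]
      ring
    have i2 : sin (D1 - D0) * sin D = sin (D1 - D) * sin D0 + sin (D - D0) * sin D1 := by
      rw [sin_sub, sin_sub, sin_sub]
      ring
    calc sin (D1 - D0) * (cos D * x + sin D * y)
        = (sin (D1 - D0) * cos D) * x + (sin (D1 - D0) * sin D) * y := by ring
      _ = _ := by
        rw [i1, i2]
        ring
  have k1 := mul_le_mul_of_nonneg_left a s2
  have k2 := mul_le_mul_of_nonneg_left b s3
  have k3 : sin (D1 - D0) * m ≤ sin (D1 - D0) * (cos D * x + sin D * y) := by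
    rw [e1]
    nlinarith
  exact le_of_mul_le_mul_left k3 s1

theorem ArmP.lem7 {P Q : ℝ} (hP : 0 < P) (hQ : 0 < Q) (h : P ^ 2 + Q ^ 2 ≤ 2) :
    0.97 ≤ cos (7 * π / 180) * (1 / P) + sin (7 * π / 180) * (1 / Q) := by
  have p1 := pi_gt_d6
  have p2 := pi_lt_d6
  have hx1 : 0.12217 ≤ 7 * π / 180 := by linarith
  have hx2 : 7 * π / 180 ≤ 0.12218 := by linarith
  obtain ⟨x, ex⟩ : ∃ x, x = 7 * π / 180 := ⟨_, rfl⟩
  rw [← ex] at hx1 hx2 ⊢
  have hc : 0.9925 ≤ cos x := by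
    have := one_sub_sq_div_two_le_cos (x := x)
    nlinarith
  have hs : 0.1217 ≤ sin x := by
    have := sin_gt_sub_cube (x := x) (by linarith)
    have h3 : x ^ 3 ≤ 0.12218 ^ 3 := pow_le_pow_left₀ (by linarith) hx2 3
    norm_num at h3
    linarith
  have h1 := tool hP (show (0 : ℝ) < 1.2665 by norm_num)
  have h2 := tool hQ (show (0 : ℝ) < 0.6293 by norm_num)
  have k1 : 0.9925 * (1 / P) ≤ cos x * (1 / P) := mul_le_mul_of_nonneg_right hc (by positivity)
  have k2 : 0.1217 * (1 / Q) ≤ sin x * (1 / Q) := mul_le_mul_of_nonneg_right hs (by positivity)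
  rw [div_le_iff₀ (by norm_num)] at h1 h2
  norm_num at h1 h2 k1 k2 ⊢
  nlinarith [sq_nonneg P, sq_nonneg Q]

theorem arm1 : ST_ARM1 := by
  intro al r Up Um G₁ G₂ hal h hm hp hG1 hG2
  have hpi := pi_pos
  have p1 := pi_gt_d6
  have p2 := pi_lt_d6
  rw [abs_le] at hal
  obtain ⟨ha1, ha2⟩ := hal
  rcases h.r0.eq_or_lt with h0 | h0
  · rw [br_zero (b := π / 3 - al) (by linarith) (by linarith) h.up0 h.wp h.up h0.symm,
      br_zero (b := π / 3 + al) (by linarith) (by linarith) h.um0 h.wm h.um h0.symm, ← h0]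
    norm_num
  obtain ⟨P, Q, hs⟩ := side (b := π / 3 - al) (G := G₂) (G0 := π / 2 + al) (by linarith)
    (by linarith) h.up0 h.wp h.up h0 hp hG2 (by linarith)
  obtain ⟨P', Q', hs'⟩ := side (b := π / 3 + al) (G := G₁) (G0 := π / 2 + al) (by linarith)
    (by linarith) h.um0 h.wm h.um h0 hm hG1 (by linarith)
  have e1 : π / 4 + (π / 3 - al) / 2 - (π / 2 + al) / 2 = π / 6 - al := by ring
  have e2 : π / 4 + (π / 3 + al) / 2 - (π / 2 + al) / 2 = π / 6 := by ring
  have hle := hs.le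
  have hle' := hs'.le
  rw [e1] at hle
  rw [e2, cos_pi_div_six, sin_pi_div_six] at hle'
  refine fin_mul (k := √3 / (2 * √2))
    (S := (√3 / 2 * (1 / P') + 1 / 2 * (1 / Q')) / 2 +
      (cos (π / 6 - al) * (1 / P) + sin (π / 6 - al) * (1 / Q)))
    h0.le (one_le_kap ?_) (by linarith)
  rcases le_total al (23 * π / 180) with hc | hc
  · have hK' := lemK hs'.p0 hs'.q0 hs'.two
    have hK : 0.97 ≤ cos (π / 6 - al) * (1 / P) + sin (π / 6 - al) * (1 / Q) := by
      refine between (D0 := 7 * π / 180) (D1 := π / 3) (by linarith) (by linarith)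
        (by linarith) (by linarith) (by linarith) (by norm_num)
        (lem7 hs.p0 hs.q0 hs.two) ?_
      have h1 := lemK hs.q0 hs.p0 (by linarith [hs.two])
      rw [cos_pi_div_three, sin_pi_div_three]
      linarith
    linarith
  · have t0 : 0.3892 ≤ sin al := by
      have h1 : sin (23 * π / 180) ≤ sin al :=
        sin_le_sin_of_le_of_le_pi_div_two (by linarith) (by linarith) hc
      refine le_trans ?_ h1
      obtain ⟨x, ex⟩ : ∃ x, x = 23 * π / 180 := ⟨_, rfl⟩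
      have hx1 : 0.401425 ≤ x := by rw [ex]; linarith
      have hx2 : x ≤ 0.401427 := by rw [ex]; linarith
      rw [← ex]
      have h2 := sin_gt_sub_cube (x := x) (by linarith)
      have h3 : x ^ 3 ≤ 0.401427 ^ 3 := pow_le_pow_left₀ (by linarith) hx2 3
      norm_num at h3
      linarith
    obtain ⟨D, eD⟩ : ∃ D, D = π / 6 - al := ⟨_, rfl⟩
    rw [← eD]
    have d0 : 0 ≤ D := by rw [eD]; linarith
    have d1 : D ≤ 0.12218 := by rw [eD]; linarith
    have hcD : 0.9925 ≤ cos D := by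
      have := one_sub_sq_div_two_le_cos (x := D)
      nlinarith
    have hsD : 0 ≤ sin D := sin_nonneg_of_nonneg_of_le_pi d0 (by linarith)
    have hp0 := hs.p0
    have hq0 := hs.q0
    have hp0' := hs'.p0
    have hq0' := hs'.q0
    have rel : sin (π / 3 + al) = sin (π / 3 - al) + sin al := by
      rw [sin_add, sin_sub, cos_pi_div_three]
      ring
    have r1 := sin_rel h.up
    have r2 := sin_rel h.um
    have rel2 : sin (π / 3 + al - Um) = sin (π / 3 - al - Up) + sin al := by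
      rw [r1, r2, rel]
      ring
    obtain ⟨sb, esb⟩ : ∃ x, x = (sin (π / 3 - al) + sin (π / 3 - al - Up)) / 2 := ⟨_, rfl⟩
    have f1 := hs.pp
    have f3 := hs'.pp
    have f4 := hs'.qq
    rw [rel, rel2] at f3 f4
    rw [← esb] at f1
    have e5 : (sin (π / 3 - al) + sin al + (sin (π / 3 - al - Up) + sin al)) / 2 = sb + sin al := by
      rw [esb]
      ring
    rw [e5] at f3 f4
    have hsb : sb ≤ 0.646 := by
      have g1 : sin (π / 3 - al) ≤ π / 3 - al := sin_le (by linarith)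
      have g2 : 0 ≤ √3 / 2 * r := by positivity
      rw [esb]
      linarith
    have h1 := tool hp0' (show (0 : ℝ) < 1.2613 by norm_num)
    have h2 := tool hq0' (show (0 : ℝ) < 0.6395 by norm_num)
    have h3 := tool hp0 (show (0 : ℝ) < 1.0954 by norm_num)
    have k1 : 0.866 * (1 / P') ≤ √3 / 2 * (1 / P') :=
      mul_le_mul_of_nonneg_right s3_lo (by positivity)
    have k3 : 0.9925 * (1 / P) ≤ cos D * (1 / P) := mul_le_mul_of_nonneg_right hcD (by positivity)
    have k4 : 0 ≤ sin D * (1 / Q) := by positivity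
    rw [div_le_iff₀ (by norm_num)] at h1 h2 h3
    norm_num at h1 h2 h3 k1 k3 k4 ⊢
    linarith

end NH
end H11ST
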