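import Pool.Agent.Helper11.NH.Sheet
open MeasureTheory Metric Set Filter Topology Real
open scoped ENNReal NNReal

/-!
# Row SUM of NH (MP_665203_co): four chords from the exchange
-/

namespace H11ST
namespace NH

/-- the indices `j + 1, j + 2, ..` -/
def SumP.ix (j : Fin 5) : ℕ → Fin 5
  | 0 => j + 1
  | n + 1 => SumP.ix j n + 1

theorem SumP.fin5 : ∀ i j : Fin 5, i ≠ j → ∃ n : Fin 4, i = SumP.ix j n := by
  decide

theorem SumP.fin5' : ∀ j : Fin 5, ∀ n : Fin 4, SumP.ix j n ≠ j := by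
  decide

theorem SumP.fin5'' : ∀ j : Fin 5, SumP.ix j 3 + 1 = j := by
  decide

theorem SumP.conn {K : Fin 5 → Set (E 2)} {pp pm : Fin 5 → E 2} (j : Fin 5)
    (hc : ∀ i, IsPreconnected (K i)) (hp : ∀ i, pp i ∈ K i) (hm : ∀ i, pm i ∈ K i) :
    IsPreconnected ((⋃ i ∈ Finset.univ.erase j, segment ℝ (pp i) (pm (i + 1))) ∪ ⋃ i, K i) := by
  obtain ⟨B, hB⟩ : ∃ B : ℕ → Set (E 2), B = fun n : ℕ => K (SumP.ix j n) ∪
      segment ℝ (pp (SumP.ix j n)) (pm (SumP.ix j n + 1)) ∪ K (SumP.ix j n + 1) := ⟨_, rfl⟩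
  have e : ((⋃ i ∈ Finset.univ.erase j, segment ℝ (pp i) (pm (i + 1))) ∪ ⋃ i, K i) =
      ⋃ n ∈ Iio 4, B n := by
    ext z
    simp only [mem_union, mem_iUnion, Finset.mem_erase, Finset.mem_univ, and_true, hB, mem_Iio]
    constructor
    · rintro (⟨i, hi, hz⟩ | ⟨i, hz⟩)
      · obtain ⟨n, rfl⟩ := SumP.fin5 i j hi
        exact ⟨n, n.2, Or.inl (Or.inr hz)⟩
      · rcases eq_or_ne i j with rfl | hi
        · exact ⟨3, by norm_num, Or.inr (by rw [SumP.fin5'']; exact hz)⟩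
        · obtain ⟨n, rfl⟩ := SumP.fin5 i j hi
          exact ⟨n, n.2, Or.inl (Or.inl hz)⟩
    · rintro ⟨n, hn, (hz | hz) | hz⟩
      · exact Or.inr ⟨_, hz⟩
      · exact Or.inl ⟨_, SumP.fin5' j ⟨n, hn⟩, hz⟩
      · exact Or.inr ⟨_, hz⟩
  rw [e]
  refine IsPreconnected.biUnion_of_chain ordConnected_Iio ?_ ?_
  · intro n _
    rw [hB]
    have h1 : IsPreconnected (K (SumP.ix j n) ∪
        segment ℝ (pp (SumP.ix j n)) (pm (SumP.ix j n + 1))) :=
      IsPreconnected.union _ (hp _) (left_mem_segment ℝ _ _) (hc _)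
        (convex_segment _ _).isPreconnected
    exact IsPreconnected.union _ (Or.inr (right_mem_segment ℝ _ _)) (hm _) h1 (hc _)
  · intro n _ _
    rw [hB, Order.succ_eq_add_one]
    exact ⟨pp (SumP.ix j n + 1), Or.inr (hp _), Or.inl (Or.inl (hp _))⟩

/-- the row SUM -/
theorem sum_row (hE : NH_EXCH) (hG : NH_GEO) (hM : NH_MEAS) : NH_SUM := by
  intro A S r hS φ s a v c g hin K pp pm fam dj j
  obtain ⟨gc, gp, gb, -, -⟩ := hG φ s a v c g
  have hball : closedBall (0 : E 2) 1 ⊆ ball 0 r := closedBall_subset_ball hS.r1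
  have vt : ∀ i, v i ∈ tree s v := fun i =>
    Or.inr (mem_iUnion.2 ⟨i, right_mem_segment ℝ _ _⟩)
  have hF : ∀ z ∈ (⋃ i ∈ Finset.univ.erase j, segment ℝ (pp i) (pm (i + 1))),
      z ∈ closedBall (0 : E 2) 1 := by
    intro z hz
    simp only [mem_iUnion] at hz
    obtain ⟨i, -, hz⟩ := hz
    exact (convex_closedBall (0 : E 2) 1).segment_subset (fam.ball i (fam.ppm i))
      (fam.ball (i + 1) (fam.pmm (i + 1))) hz
  have key := hE A S r hS.L hS.cl (tree s v)
    (⋃ i ∈ Finset.univ.erase j, segment ℝ (pp i) (pm (i + 1))) (⋃ i, K i)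
    (Finset.univ.image v) gc gp hin.sub (gb.trans hball) (by simp) ?_ ?_ ?_ ?_ ?_ ?_ ?_ ?_
  · rw [hM φ s a v c g] at key
    have k2 := key.trans (measure_biUnion_finset_le (Finset.univ.erase j) _)
    have k3 : ∑ i ∈ Finset.univ.erase j, μH[1] (segment ℝ (pp i) (pm (i + 1))) =
        ENNReal.ofReal (∑ i ∈ Finset.univ.erase j, dist (pp i) (pm (i + 1))) := by
      rw [ENNReal.ofReal_sum_of_nonneg fun i _ => dist_nonneg]
      refine Finset.sum_congr rfl fun i _ => ?_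
      rw [hausdorffMeasure_segment, edist_dist]
    rw [k3] at k2
    exact (ENNReal.ofReal_le_ofReal_iff (Finset.sum_nonneg fun i _ => dist_nonneg)).1 k2
  · intro z hz
    simp only [Finset.mem_image, Finset.mem_univ, true_and] at hz
    obtain ⟨i, rfl⟩ := hz
    exact vt i
  · intro z hz hzV
    refine hin.loc z hz fun i h => hzV ?_
    rw [h]
    exact Finset.mem_image_of_mem v (Finset.mem_univ i)
  · refine (Finset.univ.erase j).isCompact_biUnion fun i _ => ?_
    rw [segment_eq_image_lineMap]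
    exact isCompact_Icc.image (by fun_prop)
  · exact fun z hz => hball (hF z hz)
  · exact iUnion_subset fam.sub
  · intro z hz hzT
    obtain ⟨i, hi⟩ := mem_iUnion.1 hz
    have := dj.tree i ⟨hi, hzT⟩
    rw [mem_singleton_iff] at this
    rw [this]
    exact Finset.mem_image_of_mem v (Finset.mem_univ i)
  · exact SumP.conn j fam.conn fam.ppm fam.pmm
  · intro z hz
    simp only [Finset.mem_image, Finset.mem_univ, true_and] at hz
    obtain ⟨i, rfl⟩ := hz
    exact Or.inr (mem_iUnion.2 ⟨i, fam.vm i⟩)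

end NH
end H11ST
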